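import Pool.Agent.H96.PR2

set_option autoImplicit false
open Set Filter Topology

namespace Pool.Agent.Results.MP_5d027a_an.Yes

/-- no nonempty proper closed invariant subset -/
def Minimal {Z : Type} [TopologicalSpace Z] (R : Z ≃ₜ Z) : Prop :=
  ∀ A : Set Z, IsClosed A → R '' A = A → A.Nonempty → A = univ

/-- disjointness in the sense of Furstenberg -/
def Disj {X Y : Type} [TopologicalSpace X] [TopologicalSpace Y] (T : X ≃ₜ X) (S : Y ≃ₜ Y) : Prop :=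
  ∀ J : Set (X × Y), IsClosed J → (T.prodCongr S) '' J = J → Prod.fst '' J = univ →
    Prod.snd '' J = univ → J = univ

/-- disjoint from every minimal system -/
def DisjM {X : Type} [TopologicalSpace X] (T : X ≃ₜ X) : Prop :=
  ∀ (Z : Type) [MetricSpace Z] [CompactSpace Z] [Nonempty Z] (R : Z ≃ₜ Z), Minimal R → Disj T R

section
variable {X Y : Type} [TopologicalSpace X] [TopologicalSpace Y]

lemma inv_iff (T : X ≃ₜ X) (A : Set X) : T '' A = A ↔ ∀ x, T x ∈ A ↔ x ∈ A := by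
  constructor
  · intro h x
    conv_lhs => rw [← h]
    exact T.injective.mem_set_image
  · intro h
    ext y
    obtain ⟨x, rfl⟩ := T.surjective y
    rw [T.injective.mem_set_image, h]

lemma zp_succ (T : X ≃ₜ X) (n : ℤ) (x : X) : (T ^ (n + 1)) x = (T ^ n) (T x) := by
  rw [zpow_add_one]; rfl

lemma zp_succ' (T : X ≃ₜ X) (n : ℤ) (x : X) : (T ^ (n + 1)) x = T ((T ^ n) x) := by
  rw [add_comm, zpow_one_add]; rfl

lemma zp_add (T : X ≃ₜ X) (n m : ℤ) (x : X) : (T ^ (n + m)) x = (T ^ n) ((T ^ m) x) := by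
  rw [zpow_add]; rfl

lemma inv_zp {T : X ≃ₜ X} {A : Set X} (h : T '' A = A) (n : ℤ) (x : X) : (T ^ n) x ∈ A ↔ x ∈ A := by
  rw [inv_iff] at h
  induction n using Int.induction_on with
  | zero => rfl
  | succ n ih => rw [zp_succ', h, ih]
  | pred n ih => rw [← h, ← zp_succ', sub_add_cancel, ih]

lemma prod_zp (T : X ≃ₜ X) (S : Y ≃ₜ Y) (n : ℤ) (x : X) (y : Y) :
    ((T.prodCongr S) ^ n) (x, y) = ((T ^ n) x, (S ^ n) y) := by
  induction n using Int.induction_on with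
  | zero => rfl
  | succ n ih => rw [zp_succ', zp_succ', zp_succ', ih]; rfl
  | pred n ih =>
    apply (T.prodCongr S).injective
    rw [← zp_succ', sub_add_cancel, ih]
    show _ = (T _, S _)
    rw [← zp_succ', ← zp_succ', sub_add_cancel]

lemma avoid (T : X ≃ₜ X) {H : Set X} (hH : IsOpen H) :
    IsClosed {p | ∀ n : ℤ, (T ^ n) p ∉ H} ∧ T '' {p | ∀ n : ℤ, (T ^ n) p ∉ H} = {p | ∀ n : ℤ, (T ^ n) p ∉ H} := by
  refine ⟨?_, (inv_iff _ _).2 fun p => ⟨fun h n => ?_, fun h n => ?_⟩⟩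
  · rw [ofPred_forall]
    exact isClosed_iInter fun n => hH.isClosed_compl.preimage (T ^ n).continuous
  · have := h (n - 1)
    rwa [← zp_succ, sub_add_cancel] at this
  · rw [← zp_succ]; exact h _

lemma fst_inv {T : X ≃ₜ X} {S : Y ≃ₜ Y} {J : Set (X × Y)} (h : (T.prodCongr S) '' J = J) :
    T '' (Prod.fst '' J) = Prod.fst '' J ∧ S '' (Prod.snd '' J) = Prod.snd '' J := by
  constructor <;> (conv_rhs => rw [← h]) <;> rw [image_image, image_image] <;> rfl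

lemma hit [CompactSpace X] [CompactSpace Y] [T2Space X] [T2Space Y] [Nonempty X] {T : X ≃ₜ X}
    {S : Y ≃ₜ Y} (h : Disj T S) (hS : Minimal S) {H : Set (X × Y)} (hH : IsOpen H) (hne : H.Nonempty) :
    ∃ O : Set X, IsOpen O ∧ T '' O = O ∧ O.Nonempty ∧
      ∀ x ∈ O, ∀ y, ∃ n : ℤ, ((T ^ n) x, (S ^ n) y) ∈ H := by
  obtain ⟨h1, h2⟩ := avoid (T.prodCongr S) hH
  refine ⟨(Prod.fst '' _)ᶜ, (h1.isCompact.image continuous_fst).isClosed.isOpen_compl,
    by rw [T.image_compl, (fst_inv h2).1], ?_, fun x hx y => ?_⟩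
  · rw [nonempty_compl]
    intro e
    obtain ⟨p, hp, -⟩ := e.ge (mem_univ (Classical.arbitrary X))
    have := h _ h1 h2 e (hS _ (h1.isCompact.image continuous_snd).isClosed (fst_inv h2).2
      ⟨_, p, hp, rfl⟩)
    obtain ⟨q, hq⟩ := hne
    exact this.ge (mem_univ q) 0 hq
  · by_contra hc
    exact hx ⟨(x, y), fun n hn => hc ⟨n, by rwa [prod_zp] at hn⟩, rfl⟩

/-- minimal subsets -/
def MinS (T : X ≃ₜ X) (W : Set X) : Prop :=
  _root_.Minimal (fun A : Set X => IsClosed A ∧ T '' A = A ∧ A.Nonempty) W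

lemma exists_min [CompactSpace X] (T : X ≃ₜ X) {K : Set X} (h1 : IsClosed K) (h2 : T '' K = K)
    (h3 : K.Nonempty) : ∃ W ⊆ K, MinS T W :=
  zorn_superset_nonempty {A : Set X | IsClosed A ∧ T '' A = A ∧ A.Nonempty} (fun c hc hch hne => by
    have : Nonempty c := hne.to_subtype
    refine ⟨⋂₀ c, ⟨isClosed_sInter fun A hA => (hc hA).1, (inv_iff _ _).2 fun x => ?_,
      IsCompact.nonempty_sInter_of_directed_nonempty_isCompact_isClosed (fun A hA B hB => (hch.total hA hB).elim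
        (fun e => ⟨A, hA, Subset.rfl, e⟩) fun e => ⟨B, hB, e, Subset.rfl⟩)
        (fun A hA => (hc hA).2.2) (fun A hA => (hc hA).1.isCompact) fun A hA => (hc hA).1⟩,
      fun s hs => sInter_subset_of_mem hs⟩
    exact forall₂_congr fun A hA => (inv_iff _ _).1 (hc hA).2.1 x) K ⟨h1, h2, h3⟩

/-- restriction to an invariant set -/
def res (T : X ≃ₜ X) {W : Set X} (h : T '' W = W) : W ≃ₜ W :=
  T.subtype fun x => ((inv_iff T W).1 h x).symm

lemma res_zp (T : X ≃ₜ X) {W : Set X} (h : T '' W = W) (n : ℤ) (w : W) :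
    (((res T h) ^ n) w : X) = (T ^ n) w := by
  induction n using Int.induction_on with
  | zero => rfl
  | succ n ih => rw [zp_succ', zp_succ', ← ih]; rfl
  | pred n ih =>
    apply T.injective
    rw [← zp_succ', sub_add_cancel, ← ih]
    show ((res T h) _ : X) = _
    rw [← zp_succ', sub_add_cancel]

lemma res_min {T : X ≃ₜ X} {W : Set X} (h : MinS T W) : Minimal (res T h.prop.2.1) := by
  intro A h1 h2 h3
  have := h.le_of_le (y := Subtype.val '' A) ⟨h.prop.1.isClosedMap_subtype_val _ h1, by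
    conv_rhs => rw [← h2]
    rw [image_image, image_image]; rfl, h3.image _⟩ (Subtype.coe_image_subset _ _)
  refine eq_univ_of_forall fun w => ?_
  obtain ⟨a, ha, e⟩ := this w.2
  rwa [← Subtype.ext e]

end

open Pool.Agent.H96.PR in
lemma exists_ad' {P : Set (Set ℤ)} (h : ∀ l, ∃ m, ∀ p ∈ P, Free p l m) : ∃ M, ∀ p ∈ P, Ad M p := by
  choose m hm using h
  refine ⟨fun l => m ((2 * 3 ^ l + 4) * l), fun p hp l hl t => ?_⟩
  obtain ⟨s, a, b, c⟩ := hm ((2 * 3 ^ l + 4) * l) p hp t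
  obtain ⟨d, rfl⟩ : ∃ d : ℕ, s = t + d := ⟨(s - t).toNat, by omega⟩
  have e := Nat.div_add_mod d l
  have e' := Nat.mod_lt d hl
  have b' : d + (2 * 3 ^ l + 4) * l ≤ m ((2 * 3 ^ l + 4) * l) := by omega
  refine ⟨d / l + 1, ?_, fun n hn h => c n hn ⟨?_, ?_⟩⟩
  · dsimp only
    generalize m ((2 * 3 ^ l + 4) * l) = A at *
    generalize 3 ^ l = E at *
    nlinarith [Nat.zero_le (d / l), Nat.zero_le (d % l)]
  · have h1 : d ≤ (d / l + 1) * l := by nlinarith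
    have h2 := h.1
    have : ((d : ℕ) : ℤ) ≤ ((d / l + 1 : ℕ) : ℤ) * l := by exact_mod_cast h1
    linarith
  · have h1 : (d / l + 1 + (2 * 3 ^ l + 3)) * l ≤ d + (2 * 3 ^ l + 4) * l := by
      nlinarith [Nat.zero_le (d % l)]
    have h2 := h.2
    have : ((d / l + 1 + (2 * 3 ^ l + 3) : ℕ) : ℤ) * l ≤ d + ((2 * 3 ^ l + 4) * l : ℕ) := by
      exact_mod_cast h1
    linarith

open Pool.Agent.H96.PR in
lemma closed_in {X : Type} [MetricSpace X] [CompactSpace X] [Nonempty X] {T : X ≃ₜ X} (h : DisjM T)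
    {O : Set X} (h1 : IsOpen O) (h2 : T '' O = O) (h3 : O.Nonempty) :
    ∃ K ⊆ O, IsClosed K ∧ T '' K = K ∧ K.Nonempty := by
  by_contra hno
  obtain ⟨x0, hx0⟩ := h3
  obtain ⟨C, c1, c2, c3⟩ := exists_mem_nhds_isClosed_subset (h1.mem_nhds hx0)
  obtain ⟨M, hM⟩ := exists_ad' (P := range fun x : X => {n : ℤ | (T ^ n) x ∈ C}) fun l => by
    let G : Set X := ⋂ i ∈ Finset.range l, (T ^ (i : ℤ)) ⁻¹' Cᶜ
    have hG : IsOpen G := isOpen_biInter_finset fun i _ => c2.isOpen_compl.preimage (T ^ (i : ℤ)).continuous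
    obtain ⟨F, hF⟩ := isCompact_univ.elim_finite_subcover (fun n : ℤ => (T ^ n) ⁻¹' G)
      (fun n => hG.preimage (T ^ n).continuous) fun x _ => by
        by_contra hx
        refine hno ⟨_, fun y hy => ?_, (avoid T hG).1, (avoid T hG).2, x, fun n hn =>
          hx (mem_iUnion.2 ⟨n, hn⟩)⟩
        by_contra hy'
        exact hy 0 (mem_iInter₂.2 fun i _ hi => hy' ((inv_zp h2 i y).1 (c3 hi)))
    obtain ⟨B, hB⟩ := (F.image Int.natAbs).bddAbove
    refine ⟨2 * B + l, ?_⟩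
    rintro _ ⟨x, rfl⟩ t
    obtain ⟨n, hn, hx⟩ := mem_iUnion₂.1 (hF (mem_univ ((T ^ (t + B)) x)))
    have : n.natAbs ≤ B := hB (Finset.mem_coe.2 (Finset.mem_image_of_mem _ hn))
    refine ⟨n + (t + B), by omega, by omega, fun j hj hh => ?_⟩
    obtain ⟨i, hi⟩ := Int.eq_ofNat_of_zero_le (a := j - (n + (t + B))) (by omega)
    refine mem_iInter₂.1 hx i (Finset.mem_range.2 (by omega)) ?_
    rw [← zp_add, ← zp_add]
    exact (show j = i + n + (t + B) by omega) ▸ hj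
  have pt : ∀ (x : X) (c : ZMod 3), ∃ z : XX M, ∀ n : ℤ, (T ^ n) x ∈ C → z.1.1 n = c := fun x c => by
    have h0 : Cons M 0 := fun k => map_zero _
    obtain ⟨z, z1, z2, z3⟩ := glob h0 ({n : ℤ | (T ^ n) x ∈ C} ∪ ∅) (fun _ => c) 0 fun k _ s _ =>
      pure_int M (hM _ ⟨x, rfl⟩) (fun _ => c) k s
    exact ⟨⟨z, z1 ▸ h0, z2⟩, fun n hn => z3 n (Or.inl hn)⟩
  obtain ⟨z1, hz1⟩ := pt x0 1
  have : Nonempty (XX M) := ⟨z1⟩
  have hmin : Minimal (TT (M := M) 1) := fun A a1 a2 ⟨z, hz⟩ =>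
    eq_univ_of_univ_subset ((TT_min (hM _ ⟨x0, rfl⟩) z).closure_eq.ge.trans
      (a1.closure_subset_iff.2 (range_subset_iff.2 fun n => (inv_zp a2 n z).2 hz)))
  obtain ⟨O', -, -, ⟨x, hx⟩, o⟩ := hit (@h (XX M) (TopologicalSpace.metrizableSpaceMetric _) _ _ _ hmin)
    hmin (H := interior C ×ˢ {z : XX M | z.1.1 0 = 1})
    (isOpen_interior.prod ((isOpen_discrete {1}).preimage (cont_letter 0)))
    ⟨(x0, z1), mem_interior_iff_mem_nhds.2 c1, hz1 0 (mem_of_mem_nhds c1)⟩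
  obtain ⟨z, hz⟩ := pt x 0
  obtain ⟨n, e1, e2⟩ := o x hx z
  have e3 := hz n (interior_subset e1)
  have e4 : z.1.1 n = 1 := by
    rw [TT_zpow] at e2; simpa [TT, sh] using e2
  exact zero_ne_one (e3.symm.trans e4)

lemma min_meets {Y Z : Type} [MetricSpace Y] [CompactSpace Y] [Nonempty Y] {S : Y ≃ₜ Y} (h : DisjM S)
    [MetricSpace Z] [CompactSpace Z] [Nonempty Z] {R : Z ≃ₜ Z} (hR : Minimal R)
    {H : Set (Y × Z)} (h1 : IsOpen H) (h2 : H.Nonempty) :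
    ∃ W, MinS (S.prodCongr R) W ∧ (W ∩ H).Nonempty := by
  obtain ⟨O, o1, o2, o3, o4⟩ := hit (h Z R hR) hR h1 h2
  obtain ⟨K, k1, k2, k3, k4⟩ := closed_in h o1 o2 o3
  obtain ⟨W, w1, w2⟩ := exists_min (S.prodCongr R) (K := K ×ˢ univ) (k2.prod isClosed_univ)
    ((inv_iff _ _).2 fun p => by simpa using (inv_iff _ _).1 k3 p.1) (k4.prod univ_nonempty)
  obtain ⟨⟨y, z⟩, hp⟩ := w2.prop.2.2
  obtain ⟨n, hn⟩ := o4 y (k1 (w1 hp).1) z
  exact ⟨W, w2, _, prod_zp S R n y z ▸ (inv_zp w2.prop.2.1 n _).2 hp, hn⟩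

theorem result (X Y : Type) [MetricSpace X] [CompactSpace X] [Nonempty X]
    [MetricSpace Y] [CompactSpace Y] [Nonempty Y] (T : X ≃ₜ X) (S : Y ≃ₜ Y)
    (hX : DisjM T) (hY : DisjM S) : DisjM (T.prodCongr S) := by
  intro Z _ _ _ R hR J j1 j2 j3 _
  by_contra hne
  let H : Set (X × Y × Z) := {p | ((p.1, p.2.1), p.2.2) ∉ J}
  have hH : IsOpen H := j1.isOpen_compl.preimage (by fun_prop)
  obtain ⟨W, w1, w, w2, p, hp, rfl⟩ := min_meets hY hR (isOpenMap_snd H hH) (by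
    obtain ⟨q, hq⟩ := nonempty_compl.2 hne
    exact ⟨_, (q.1.1, q.1.2, q.2), hq, rfl⟩)
  have : CompactSpace W := isCompact_iff_compactSpace.1 w1.prop.1.isCompact
  have : Nonempty W := ⟨⟨_, w2⟩⟩
  obtain ⟨O, o1, o2, o3, o4⟩ := hit (hX W _ (res_min w1)) (res_min w1)
    (H := (fun q : X × W => (q.1, q.2.1)) ⁻¹' H) (hH.preimage (by fun_prop)) ⟨(p.1, ⟨_, w2⟩), hp⟩
  obtain ⟨K, k1, k2, k3, x, hx⟩ := closed_in hX o1 o2 o3
  obtain ⟨u, G, -, g1, hu, g2, g3⟩ := generalized_tube_lemma k2.isCompact (isCompact_singleton (x := p.2))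
    (avoid (T.prodCongr (S.prodCongr R)) hH).1.isOpen_compl (by
      rintro ⟨x', _⟩ ⟨h1, rfl⟩ h2
      obtain ⟨n, hn⟩ := o4 x' (k1 h1) ⟨_, w2⟩
      refine h2 n ?_
      rw [prod_zp]
      simpa only [mem_preimage, res_zp] using hn)
  obtain ⟨O', -, -, ⟨y, hy⟩, o⟩ := hit (hY Z R hR) hR g1 ⟨_, g2 rfl⟩
  obtain ⟨⟨q, z⟩, hz, e⟩ := j3.ge (mem_univ (x, y))
  obtain rfl : q = (x, y) := e
  obtain ⟨n, hn⟩ := o y hy z
  refine g3 (mk_mem_prod (hu ((inv_zp k3 n x).2 hx)) hn) fun m hm => hm ?_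
  have := (inv_zp j2 (m + n) _).2 hz
  simpa only [prod_zp, zp_add] using this

end Pool.Agent.Results.MP_5d027a_an.Yes
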